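import Pool.Agent.helper69.SN.SpecA
import Pool.Agent.helper44.SC.Gard9

/-! Row sn:aREC: the recursion for `Ph`. -/

open scoped Pointwise ContDiff
open MeasureTheory Set Filter Topology

set_option linter.unusedVariables false

namespace Pool.Agent.helper69.SN

open Pool.Agent.helper83.SC

theorem aREC_zero {m : ℕ} (L : List (Mat m)) (M : Mat m) (hL : L.length ≤ m)
    (h0 : (0 : Mat m) ∈ L) : mD (fun j : Fin m => L.getD j M) = 0 := by
  obtain ⟨i, hi, hi0⟩ := List.mem_iff_getElem.1 h0
  have him : i < m := lt_of_lt_of_le hi hL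
  have h1 : (fun j : Fin m => L.getD j M)
      = Function.update (fun j : Fin m => L.getD j M) ⟨i, him⟩ ((0 : ℝ) • (0 : Mat m)) := by
    rw [eq_comm, Function.update_eq_self_iff]
    rw [zero_smul]
    show (0 : Mat m) = L.getD i M
    rw [List.getD_eq_getElem _ _ hi, hi0]
  rw [h1, mD_update_smul, zero_mul]

/-- The sorted list of `insert k T`. -/
theorem aREC_sort {n : ℕ} (T : Finset (Fin n)) (k : Fin n) (hk : k ∉ T) :
    (insert k T).sort.Perm (k :: T.sort) := by
  refine (Finset.sort_perm_toList _ _).trans ?_
  refine (Finset.toList_insert hk).trans ?_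
  exact ((Finset.sort_perm_toList T (· ≤ ·)).symm).cons k

theorem aREC_map {m n : ℕ} (B : Fin n → Mat m) (T : Finset (Fin n)) (k : Fin n) (hk : k ∉ T) :
    T.sort.map (Function.update B k 0) = T.sort.map B := by
  refine List.map_congr_left fun i hi => ?_
  have hi' : i ∈ T := (Finset.mem_sort _).1 hi
  rw [Function.update_of_ne]
  intro h
  exact hk (h ▸ hi')

theorem aREC_mem {m n : ℕ} (B : Fin n → Mat m) (T : Finset (Fin n)) (k : Fin n) :
    (0 : Mat m) ∈ (insert k T).sort.map (Function.update B k 0) := by
  refine List.mem_map.2 ⟨k, (Finset.mem_sort _).2 (Finset.mem_insert_self k T), ?_⟩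
  rw [Function.update_self]

theorem aREC : aREC_stmt := by
  intro m n B k M
  have hu : (Finset.univ : Finset (Finset (Fin n))) = (insert k (Finset.univ.erase k)).powerset := by
    rw [Finset.insert_erase (Finset.mem_univ k), Finset.powerset_univ]
  have hk : k ∉ (Finset.univ.erase k : Finset (Fin n)) := Finset.notMem_erase k _
  unfold Ph dPh
  rw [hu, Finset.sum_powerset_insert hk, Finset.sum_powerset_insert hk,
    Finset.sum_powerset_insert hk]
  have hkt : ∀ t ∈ (Finset.univ.erase k : Finset (Fin n)).powerset, k ∉ t := by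
    intro t ht h
    exact hk ((Finset.mem_powerset.1 ht) h)
  have e1 : ∀ t ∈ (Finset.univ.erase k : Finset (Fin n)).powerset,
      (m.descFactorial t.card : ℝ) * mD (slot B t M)
        = (m.descFactorial t.card : ℝ) * mD (slot (Function.update B k 0) t M) := by
    intro t ht
    rw [GTH.slot_eq, GTH.slot_eq, aREC_map B t k (hkt t ht)]
  have e2 : ∀ t ∈ (Finset.univ.erase k : Finset (Fin n)).powerset,
      (m.descFactorial (insert k t).card : ℝ) * mD (slot (Function.update B k 0) (insert k t) M)
        = 0 := by
    intro t ht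
    by_cases hc : m < (insert k t).card
    · rw [Nat.descFactorial_eq_zero_iff_lt.2 hc]
      simp
    · rw [GTH.slot_eq, aREC_zero _ M (by simpa using hc) (aREC_mem B t k), mul_zero]
  have e3 : ∀ t ∈ (Finset.univ.erase k : Finset (Fin n)).powerset,
      (m.descFactorial ((insert k t).card + 1) : ℝ)
        * mD (slotA (Function.update B k 0) (insert k t) 1 (B k) M) = 0 := by
    intro t ht
    by_cases hc : m < (insert k t).card + 1
    · rw [Nat.descFactorial_eq_zero_iff_lt.2 hc]
      simp
    · rw [GTH.slotA_eq, aREC_zero _ M (by simpa using hc)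
        (List.mem_append.2 (Or.inl (aREC_mem B t k))), mul_zero]
  have e4 : ∀ t ∈ (Finset.univ.erase k : Finset (Fin n)).powerset,
      (m.descFactorial (insert k t).card : ℝ) * mD (slot B (insert k t) M)
        = (m.descFactorial (t.card + 1) : ℝ)
          * mD (slotA (Function.update B k 0) t 1 (B k) M) := by
    intro t ht
    rw [Finset.card_insert_of_notMem (hkt t ht)]
    by_cases hc : m < t.card + 1
    · rw [Nat.descFactorial_eq_zero_iff_lt.2 hc]
      simp
    · rw [GTH.slot_eq, GTH.slotA_eq, aREC_map B t k (hkt t ht)]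
      congr 1
      refine GTH.mD_perm_list M ?_ ?_
      · refine ((aREC_sort t k (hkt t ht)).map B).trans ?_
        rw [List.map_cons]
        exact (List.perm_append_singleton (B k) (t.sort.map B)).symm
      · rw [List.length_map, Finset.length_sort, Finset.card_insert_of_notMem (hkt t ht)]
        omega
  rw [Finset.sum_congr rfl e1, Finset.sum_congr rfl e2, Finset.sum_congr rfl e3,
    Finset.sum_congr rfl e4, Finset.sum_const_zero, add_zero, add_zero]

/-- The row. -/
theorem aREC_of : aREC_stmt := aREC

end Pool.Agent.helper69.SN
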